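import Pool.Agent.Helper85.KPA.StC

/-!
# Project KP, chapter A part C, module CXD: division in codimension two
-/

set_option autoImplicit false

namespace Pool.Agent.Helper32.KPA

open Pool.Agent.Helper85.KPA Pool.Agent.Helper5.KPA Pool.Agent.Helper52.KP MvPolynomial

private lemma ev_cont {m : ℕ} (p : MvPolynomial (Fin m) ℂ) : Continuous fun z => ev p z :=
  MvPolynomial.continuous_eval p

private lemma sz_cont (C : Cone) : Continuous C.sz := by
  unfold Cone.sz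
  exact continuous_finsetSum _ fun i _ => (ev_cont (C.X i)).norm

private lemma sz_nonneg (C : Cone) (z : Fin C.m → ℂ) : 0 ≤ C.sz z :=
  Finset.sum_nonneg fun _ _ => norm_nonneg _

private lemma X_ne (C : Cone) (hC : Good C) : ∃ i, C.X i ≠ 0 := by
  obtain ⟨z, hz⟩ : ∃ z, ev C.Δ z ≠ 0 := by
    by_contra h
    push Not at h
    exact hC.Δ0 (MvPolynomial.funext fun z => by simpa using h z)
  by_contra h
  push Not at h
  have := hC.Xpos z hz
  simp [Cone.sz, h] at this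

/-- the bound on the chart -/
private lemma bound (C : Cone) (hC : Good C) (d e : ℕ) (i₀ : Fin C.nx)
    (u : Fin C.nx → MvPolynomial (Fin C.m) ℂ) (hu : ∀ j, u j ∈ C.R (d * e + d))
    (hrel : ∀ j, C.X j ^ d * u i₀ = C.X i₀ ^ d * u j) :
    ∃ B : ℝ, 0 ≤ B ∧ ∀ z ∈ C.U, ‖ev (u i₀) z‖ ≤ B * C.sz z ^ (d * e) * ‖ev (C.X i₀ ^ d) z‖ := by
  choose Bj hBj using fun j => hC.bdd _ (u j) (hu j)
  set B : ℝ := ∑ j, |Bj j| with hB
  have hB0 : 0 ≤ B := Finset.sum_nonneg fun _ _ => abs_nonneg _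
  have hBle : ∀ j, Bj j ≤ B := fun j =>
    (le_abs_self _).trans (Finset.single_le_sum (f := fun j => |Bj j|)
      (fun _ _ => abs_nonneg _) (Finset.mem_univ j))
  refine ⟨B * (C.nx : ℝ) ^ d, by positivity, ?_⟩
  intro z hz
  obtain ⟨j, -, hj⟩ := Finset.exists_max_image Finset.univ (fun i => ‖ev (C.X i) z‖)
    ⟨i₀, Finset.mem_univ _⟩
  have hs0 := hC.Xpos z hz
  have hs1 : C.sz z ≤ (C.nx : ℝ) * ‖ev (C.X j) z‖ := by
    have := Finset.sum_le_card_nsmul Finset.univ (fun i => ‖ev (C.X i) z‖) ‖ev (C.X j) z‖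
      (fun i hi => hj i hi)
    simpa [Cone.sz] using this
  have hXj : 0 < ‖ev (C.X j) z‖ := by
    rcases (norm_nonneg (ev (C.X j) z)).lt_or_eq with h | h
    · exact h
    · rw [← h, mul_zero] at hs1
      linarith
  have hs2 : C.sz z ^ d ≤ (C.nx : ℝ) ^ d * ‖ev (C.X j) z‖ ^ d := by
    rw [← mul_pow]
    exact pow_le_pow_left₀ hs0.le hs1 d
  have hE : ‖ev (C.X j) z‖ ^ d * ‖ev (u i₀) z‖ = ‖ev (C.X i₀) z‖ ^ d * ‖ev (u j) z‖ := by
    have := congrArg (fun p => ‖ev p z‖) (hrel j)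
    simpa [ev, map_mul, map_pow, norm_mul, norm_pow] using this
  have hXd : 0 < ‖ev (C.X j) z‖ ^ d := pow_pos hXj d
  have hX0 : (0 : ℝ) ≤ ‖ev (C.X i₀) z‖ ^ d := pow_nonneg (norm_nonneg _) d
  have hP : ‖ev (C.X i₀ ^ d) z‖ = ‖ev (C.X i₀) z‖ ^ d := by
    simp [ev, map_pow, norm_pow]
  rw [hP]
  have h1 : ‖ev (u j) z‖ ≤ B * C.sz z ^ (d * e + d) :=
    (hBj j z).trans (mul_le_mul_of_nonneg_right (hBle j) (by positivity))
  have h2 : ‖ev (C.X j) z‖ ^ d * ‖ev (u i₀) z‖ ≤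
      ‖ev (C.X j) z‖ ^ d * (B * (C.nx : ℝ) ^ d * C.sz z ^ (d * e) * ‖ev (C.X i₀) z‖ ^ d) := by
    rw [hE]
    calc ‖ev (C.X i₀) z‖ ^ d * ‖ev (u j) z‖
        ≤ ‖ev (C.X i₀) z‖ ^ d * (B * C.sz z ^ (d * e + d)) := mul_le_mul_of_nonneg_left h1 hX0
      _ = (‖ev (C.X i₀) z‖ ^ d * (B * C.sz z ^ (d * e))) * C.sz z ^ d := by
          rw [pow_add]; ring
      _ ≤ (‖ev (C.X i₀) z‖ ^ d * (B * C.sz z ^ (d * e))) *
          ((C.nx : ℝ) ^ d * ‖ev (C.X j) z‖ ^ d) :=
          mul_le_mul_of_nonneg_left hs2 (by positivity)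
      _ = _ := by ring
  exact le_of_mul_le_mul_left h2 hXd

theorem hCXD : StCDN → StCDV → StCBD → StCHM → StCNP → StCXD := by
  intro hDN hDV hBD hHM hNP C hC d k₀ k f y hd hf hf0 hy hk hv hy0
  choose v hvR hvE using hv
  obtain ⟨i₀, hi₀⟩ := X_ne C hC
  have hX0 : C.X i₀ ^ d ≠ 0 := pow_ne_zero d hi₀
  have hCX0 : (Polynomial.C (C.X i₀ ^ d) : QQ C.m) ≠ 0 := by
    rwa [Ne, Polynomial.C_eq_zero]
  have hrelP : ∀ j, (Polynomial.C (C.X j ^ d) : QQ C.m) * v i₀ =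
      Polynomial.C (C.X i₀ ^ d) * v j := by
    intro j
    apply mul_left_cancel₀ hf0
    calc f * (Polynomial.C (C.X j ^ d) * v i₀) = Polynomial.C (C.X j ^ d) * (f * v i₀) := by ring
      _ = Polynomial.C (C.X j ^ d) * (Polynomial.C (C.X i₀ ^ d) * y) := by rw [hvE i₀]
      _ = Polynomial.C (C.X i₀ ^ d) * (Polynomial.C (C.X j ^ d) * y) := by ring
      _ = Polynomial.C (C.X i₀ ^ d) * (f * v j) := by rw [hvE j]
      _ = f * (Polynomial.C (C.X i₀ ^ d) * v j) := by ring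
  have hrel : ∀ l j, C.X j ^ d * (v i₀).coeff l = C.X i₀ ^ d * (v j).coeff l := by
    intro l j
    have := congrArg (fun p => Polynomial.coeff p l) (hrelP j)
    simpa only [Polynomial.coeff_C_mul] using this
  have hv0 : v i₀ ≠ 0 := by
    intro h
    have := hvE i₀
    rw [h, mul_zero] at this
    exact (mul_ne_zero hCX0 hy0) this
  rcases Nat.lt_or_ge k k₀ with hlt | hle
  · -- the case `k₀ = k + 1`
    exfalso
    have hk1 : k₀ = k + 1 := le_antisymm hk hlt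
    subst hk1
    obtain ⟨l, hl⟩ : ∃ l, (v i₀).coeff l ≠ 0 := by
      by_contra h
      push Not at h
      exact hv0 (Polynomial.ext fun l => by simpa using h l)
    have hcst : ∀ j, ∃ c : ℂ, (v j).coeff l = MvPolynomial.C c := by
      intro j
      have h := hvR j l
      rw [Nat.sub_self, Nat.mul_zero] at h
      exact hC.cst _ h
    choose c hc using hcst
    have hc0 : c i₀ ≠ 0 := by
      intro h
      apply hl
      rw [hc i₀, h, map_zero]
    refine hNP C hC d hd i₀ hi₀ fun j => ⟨c j / c i₀, ?_⟩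
    have h := hrel l j
    rw [hc i₀, hc j] at h
    calc C.X j ^ d = C.X j ^ d * (MvPolynomial.C (c i₀) * MvPolynomial.C (c i₀)⁻¹) := by
          rw [← map_mul, mul_inv_cancel₀ hc0, map_one, mul_one]
      _ = (C.X j ^ d * MvPolynomial.C (c i₀)) * MvPolynomial.C (c i₀)⁻¹ := by ring
      _ = (C.X i₀ ^ d * MvPolynomial.C (c j)) * MvPolynomial.C (c i₀)⁻¹ := by rw [h]
      _ = (MvPolynomial.C (c j) * MvPolynomial.C (c i₀)⁻¹) * C.X i₀ ^ d := by ring
      _ = MvPolynomial.C (c j / c i₀) * C.X i₀ ^ d := by rw [← map_mul, div_eq_mul_inv]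
  · -- the case `k₀ ≤ k`
    refine ⟨hle, ?_⟩
    obtain ⟨e, rfl⟩ : ∃ e, k = k₀ + e := ⟨k - k₀, by omega⟩
    have he1 : d * (k₀ + e + 1 - k₀) = d * e + d := by
      rw [show k₀ + e + 1 - k₀ = e + 1 by omega]
      ring
    have he2 : d * (k₀ + e - k₀) = d * e := by
      rw [show k₀ + e - k₀ = e by omega]
    rw [he2]
    have hvR' : ∀ l j, (v j).coeff l ∈ C.R (d * e + d) := by
      intro l j
      have := hvR j l
      rwa [he1] at this
    have hB : ∀ l, ∃ B : ℝ, 0 ≤ B ∧ ∀ z ∈ C.U,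
        ‖ev ((v i₀).coeff l) z‖ ≤ B * C.sz z ^ (d * e) * ‖ev (C.X i₀ ^ d) z‖ := fun l =>
      bound C hC d e i₀ (fun j => (v j).coeff l) (hvR' l) (hrel l)
    have hdvd : (Polynomial.C (C.X i₀ ^ d) : QQ C.m) ∣ v i₀ := by
      rw [Polynomial.C_dvd_iff_dvd_coeff]
      intro l
      obtain ⟨B, hB0, hBz⟩ := hB l
      refine hDV C.m _ _ C.Δ (fun z => B * C.sz z ^ (d * e)) ?_ hC.Δ0 hX0 fun z hz => hBz z hz
      exact continuous_const.mul ((sz_cont C).pow _)
    obtain ⟨G, hG⟩ := hdvd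
    have hGl : ∀ l, (v i₀).coeff l = C.X i₀ ^ d * G.coeff l := by
      intro l
      rw [hG, Polynomial.coeff_C_mul]
    refine ⟨G, ?_, ?_⟩
    · intro l
      obtain ⟨hH1, -, -, -⟩ := hHM C.m C.w
      refine hBD C hC (d * e) (G.coeff l) ?_ ?_
      · rw [hH1]
        have a1 : Ps0 C.w ((v i₀).coeff l) =
            Polynomial.C ((v i₀).coeff l) * Polynomial.X ^ (d * e + d) :=
          (hH1 _ _).1 (hC.hom _ _ (hvR' l i₀))
        have a2 : Ps0 C.w (C.X i₀) = Polynomial.C (C.X i₀) * Polynomial.X ^ 1 :=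
          (hH1 _ _).1 (hC.hom _ _ (hC.XR i₀))
        have a3 : Ps0 C.w (C.X i₀ ^ d) = Polynomial.C (C.X i₀ ^ d) * Polynomial.X ^ d := by
          rw [map_pow, a2, mul_pow, ← map_pow, pow_one]
        have a4 : (Polynomial.C (C.X i₀ ^ d) * Polynomial.X ^ d :
            Polynomial (MvPolynomial (Fin C.m) ℂ)) ≠ 0 :=
          mul_ne_zero hCX0 (pow_ne_zero d Polynomial.X_ne_zero)
        apply mul_left_cancel₀ a4
        rw [hGl l, map_mul, a3] at a1
        rw [a1, map_mul, pow_add]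
        ring
      · obtain ⟨B, hB0, hBz⟩ := hB l
        refine ⟨B, fun z _ => ?_⟩
        refine hDN C.m (C.Δ * C.X i₀) (fun z => ‖ev (G.coeff l) z‖)
          (fun z => B * C.sz z ^ (d * e)) (mul_ne_zero hC.Δ0 hi₀) (ev_cont _).norm
          (continuous_const.mul ((sz_cont C).pow _)) ?_ z
        intro z hz
        have hz' : ev C.Δ z ≠ 0 ∧ ev (C.X i₀) z ≠ 0 := by
          rw [ev, map_mul] at hz
          exact ⟨left_ne_zero_of_mul hz, right_ne_zero_of_mul hz⟩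
        have h := hBz z hz'.1
        rw [hGl l] at h
        have hp : 0 < ‖ev (C.X i₀ ^ d) z‖ := by
          rw [norm_pos_iff, ev, map_pow]
          exact pow_ne_zero d hz'.2
        have h2 : ‖ev (C.X i₀ ^ d * G.coeff l) z‖ =
            ‖ev (C.X i₀ ^ d) z‖ * ‖ev (G.coeff l) z‖ := by
          rw [ev, map_mul, norm_mul]
        rw [h2, mul_comm (B * C.sz z ^ (d * e))] at h
        exact le_of_mul_le_mul_left h hp
    · apply mul_left_cancel₀ hCX0
      rw [hvE i₀, hG]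
      ring

end Pool.Agent.Helper32.KPA
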